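import Mathlib
import Pool.Agent.H661R3.OP.SV

/-!
Signs of completely multiplicative functions at rough tuples, in short intervals: the core.
-/

set_option autoImplicit false

open Finset

namespace Pool.Agent.W5h75.SP

open Pool.Agent.H661R3.OP

/-- the sieve with fixed constants -/
def SVK (K C : ℕ) : Prop := ∀ (κ : Type) [Fintype κ], Fintype.card κ ≤ K →
  ∀ (c d : κ → ℤ) (Y : ℕ), 2 ≤ Y →
  (∀ i, ∀ p : ℕ, p.Prime → p ≤ Y → (p : ℤ) ∣ c i → ¬ (p : ℤ) ∣ d i) →
  (∀ i, ∀ p : ℕ, p.Prime → p ≤ 2 * K → (p : ℤ) ∣ c i) →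
  ∀ (T₀ : ℤ) (T : ℕ), Y ^ C ≤ T →
  T ≤ Y ^ C * {t : ℤ | T₀ ≤ t ∧ t < T₀ + T ∧ ∀ i, Rough Y (c i * t + d i)}.ncard

theorem exists_SVK (K : ℕ) : ∃ C : ℕ, SVK K C := t_SV K

theorem rough_mul {Y : ℕ} {x y : ℤ} (hx : Rough Y x) (hy : Rough Y y) : Rough Y (x * y) := by
  intro p hp hpY hd
  rcases Int.Prime.dvd_mul' hp hd with h | h
  · exact hx p hp hpY h
  · exact hy p hp hpY h

theorem rough_prime {Y p : ℕ} (hp : p.Prime) (h : Y < p) : Rough Y (p : ℤ) := by
  intro q hq hqY hd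
  have h1 : q ∣ p := Int.natCast_dvd_natCast.1 hd
  have h2 := (Nat.prime_dvd_prime_iff_eq hq hp).1 h1
  omega

theorem rough_ne_zero {Y : ℕ} {x : ℤ} (hY : 2 ≤ Y) (hx : Rough Y x) : x ≠ 0 := by
  rintro rfl
  exact hx 2 Nat.prime_two hY (dvd_zero _)

/-- the exceptional integers in the interval `(X, X + Z]` -/
def Exc {ι : Type} (a b : ι → ℤ) (o : ι) (F : ℤ → ZMod 2) (c : ZMod 2) (Y : ℕ) (X Z : ℤ) : Set ℤ :=
  {n : ℤ | X < n ∧ n ≤ X + Z ∧ (∀ i, Rough Y (a i * n + b i)) ∧ F (a o * n + b o) ≠ c}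

theorem exc_finite {ι : Type} (a b : ι → ℤ) (o : ι) (F : ℤ → ZMod 2) (c : ZMod 2) (Y : ℕ)
    (X Z : ℤ) : (Exc a b o F c Y X Z).Finite :=
  (Set.finite_Ioc X (X + Z)).subset fun _ hn => ⟨hn.1, hn.2.1⟩

theorem link {ι : Type} [Fintype ι] (a b : ι → ℤ) (o : ι) (W : ℕ) (n₀ : ℤ) (K C : ℕ)
    (hSV : SVK K C) (hK : 2 * Fintype.card ι ≤ K) (hW : 0 < W)
    (hWp : ∀ p : ℕ, p.Prime → p ≤ 2 * K → p ∣ W) (Y : ℕ) (hY : 2 ≤ Y)
    (hao : 0 < a o)
    (hn₀ : ∀ i, ∀ p : ℕ, p.Prime → p ∣ W → ¬ (p : ℤ) ∣ a i * n₀ + b i)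
    (hab : ∀ i, ∀ p : ℕ, p.Prime → p ≤ Y → (p : ℤ) ∣ a i → ¬ (p : ℤ) ∣ b i)
    (F : ℤ → ZMod 2) (hF : Add2 F) (c : ZMod 2) (X Z : ℤ) (E : ℕ)
    (hE : (Exc a b o F c Y X Z).ncard ≤ E) (hZX : Z ≤ X) (hX : 0 < X) (hb : |b o| < X)
    (V V' v v' : ℤ) (hV : 0 < V) (hVV : V ≤ V') (hrV : Rough Y V) (hrV' : Rough Y V')
    (hv : V = 1 + a o * W * v) (hv' : V' = 1 + a o * W * v')
    (hclose : 6 * X * (V' - V) ≤ Z * V)
    (hlen : 2 * V * W * (Y ^ C * (2 * E + 1) : ℕ) ≤ Z) : F V = F V' := by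
  classical
  set μ : ℤ := a o * n₀ + b o with hμ
  set T : ℕ := Y ^ C * (2 * E + 1) with hT
  have hWz : (0 : ℤ) < W := by exact_mod_cast hW
  have hVW : 0 < V * W := mul_pos hV hWz
  -- the start of the range of `t`
  set T₀ : ℤ := (X - (n₀ + W * v * μ)) / (V * W) + 1 with hT₀
  have hdiv : (V * W) * ((X - (n₀ + W * v * μ)) / (V * W)) + (X - (n₀ + W * v * μ)) % (V * W) =
    X - (n₀ + W * v * μ) := Int.mul_ediv_add_emod _ _
  have hm0 : 0 ≤ (X - (n₀ + W * v * μ)) % (V * W) := Int.emod_nonneg _ hVW.ne'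
  have hm1 : (X - (n₀ + W * v * μ)) % (V * W) < V * W := Int.emod_lt_of_pos _ hVW
  have hlow : ∀ t : ℤ, T₀ ≤ t → X < n₀ + W * v * μ + V * W * t := by
    intro t ht
    have h1 : V * W * T₀ ≤ V * W * t := mul_le_mul_of_nonneg_left ht hVW.le
    have h2 : V * W * T₀ = (V * W) * ((X - (n₀ + W * v * μ)) / (V * W)) + V * W := by
      rw [hT₀]; ring
    linarith
  have hhigh : ∀ t : ℤ, t < T₀ + T → 2 * (n₀ + W * v * μ + V * W * t) ≤ 2 * X + Z := by
    intro t ht
    have h0 : t ≤ T₀ + T - 1 := by omega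
    have h1 : V * W * t ≤ V * W * (T₀ + T - 1) := mul_le_mul_of_nonneg_left h0 hVW.le
    have h2 : V * W * (T₀ + T - 1) =
        (V * W) * ((X - (n₀ + W * v * μ)) / (V * W)) + V * W * T := by
      rw [hT₀]; ring
    have h3 : 2 * V * W * (T : ℤ) ≤ Z := hlen
    linarith
  -- the two integers
  set nn : ℤ → ℤ := fun t => n₀ + W * v * μ + V * W * t with hnn
  set nn' : ℤ → ℤ := fun t => n₀ + W * v' * μ + V' * W * t with hnn'
  have e1 : ∀ t, a o * nn t + b o = V * (μ + a o * W * t) := by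
    intro t
    simp only [hnn]
    rw [hv, hμ]
    ring
  have e2 : ∀ t, a o * nn' t + b o = V' * (μ + a o * W * t) := by
    intro t
    simp only [hnn']
    rw [hv', hμ]
    ring
  have hZ0 : 0 ≤ Z := by
    have : (0 : ℤ) ≤ 2 * V * W * (T : ℤ) := by positivity
    exact this.trans hlen
  obtain ⟨hb1, hb2⟩ := abs_lt.1 hb
  -- the interval
  have hin : ∀ t, T₀ ≤ t → t < T₀ + T →
      (X < nn t ∧ nn t ≤ X + Z) ∧ (X < nn' t ∧ nn' t ≤ X + Z) ∧ 0 < μ + a o * W * t := by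
    intro t ht1 ht2
    have h1 : X < nn t := hlow t ht1
    have h2 : 2 * nn t ≤ 2 * X + Z := hhigh t ht2
    have h3 : 0 < V * (μ + a o * W * t) := by
      rw [← e1]
      have : X ≤ a o * nn t := by nlinarith
      linarith
    have h4 : 0 < μ + a o * W * t := pos_of_mul_pos_right h3 hV.le
    have h5 : a o * (nn' t - nn t) = (V' - V) * (μ + a o * W * t) := by
      have := e1 t
      have := e2 t
      linarith
    have h6 : 0 ≤ a o * (nn' t - nn t) := by
      rw [h5]; exact mul_nonneg (by linarith) h4.le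
    have h7 : 0 ≤ nn' t - nn t := nonneg_of_mul_nonneg_right h6 hao
    have h8 : V * (μ + a o * W * t) ≤ 3 * a o * X := by
      rw [← e1]
      have h9 : a o * (2 * nn t) ≤ a o * (2 * X + Z) := mul_le_mul_of_nonneg_left h2 hao.le
      have h10 : b o ≤ a o * X := by nlinarith
      have h11 : a o * Z ≤ a o * X := mul_le_mul_of_nonneg_left hZX hao.le
      nlinarith
    have h12 : 2 * (a o * (nn' t - nn t)) ≤ a o * Z := by
      rw [h5]
      -- multiply by `V`
      have h13 : V * (2 * ((V' - V) * (μ + a o * W * t))) ≤ V * (a o * Z) := by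
        calc V * (2 * ((V' - V) * (μ + a o * W * t)))
            = 2 * (V' - V) * (V * (μ + a o * W * t)) := by ring
          _ ≤ 2 * (V' - V) * (3 * a o * X) := mul_le_mul_of_nonneg_left h8 (by linarith)
          _ = a o * (6 * X * (V' - V)) := by ring
          _ ≤ a o * (Z * V) := mul_le_mul_of_nonneg_left hclose hao.le
          _ = V * (a o * Z) := by ring
      exact le_of_mul_le_mul_left h13 hV
    have h14 : 2 * (nn' t - nn t) ≤ Z := by
      have : a o * (2 * (nn' t - nn t)) ≤ a o * Z := by linarith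
      exact le_of_mul_le_mul_left this hao
    exact ⟨⟨h1, by linarith⟩, ⟨by linarith, by linarith⟩, h4⟩
  -- the sieve
  set U : Bool → ℤ := fun β => if β then V' else V with hU
  set u : Bool → ℤ := fun β => if β then v' else v with hu
  have hUr : ∀ β, Rough Y (U β) := by intro β; cases β <;> simp [hU, hrV, hrV']
  have hs := hSV (ι × Bool) (by
      rw [Fintype.card_prod, Fintype.card_bool]; omega)
    (fun x => a x.1 * U x.2 * W) (fun x => a x.1 * (n₀ + W * u x.2 * μ) + b x.1) Y hY (by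
      rintro ⟨i, β⟩ p hp hpY hd hd'
      simp only at hd hd'
      rcases Int.Prime.dvd_mul' hp hd with h | h
      · rcases Int.Prime.dvd_mul' hp h with h | h
        · have h1 : (p : ℤ) ∣ b i := by
            have := dvd_sub hd' (h.mul_right (n₀ + W * u β * μ))
            simpa using this
          exact hab i p hp hpY h h1
        · exact hUr β p hp hpY h
      · have h1 : (p : ℤ) ∣ a i * n₀ + b i := by
          have h2 : a i * n₀ + b i = (a i * (n₀ + W * u β * μ) + b i) - W * (a i * u β * μ) := by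
            ring
          rw [h2]
          exact dvd_sub hd' (h.mul_right _)
        exact hn₀ i p hp (Int.natCast_dvd_natCast.1 h) h1)
    (by
      rintro ⟨i, β⟩ p hp hpK
      exact (Int.natCast_dvd_natCast.2 (hWp p hp hpK)).mul_left _)
    T₀ T (by rw [hT]; exact Nat.le_mul_of_pos_right _ (by omega))
  set G : Set ℤ := {t : ℤ | T₀ ≤ t ∧ t < T₀ + T ∧
    ∀ x : ι × Bool, Rough Y (a x.1 * U x.2 * W * t + (a x.1 * (n₀ + W * u x.2 * μ) + b x.1))}
    with hG
  have hGfin : G.Finite := (Set.finite_Ico T₀ (T₀ + T)).subset fun t ht => ⟨ht.1, ht.2.1⟩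
  have hcard : 2 * E + 1 ≤ G.ncard := by
    have h1 : Y ^ C * (2 * E + 1) ≤ Y ^ C * G.ncard := hs
    exact Nat.le_of_mul_le_mul_left h1 (by positivity)
  have hr1 : ∀ t ∈ G, ∀ i, Rough Y (a i * nn t + b i) := by
    intro t ht i
    have := ht.2.2 (i, false)
    have e : a i * nn t + b i = a i * U false * W * t + (a i * (n₀ + W * u false * μ) + b i) := by
      simp only [hnn, hU, hu]
      simp
      ring
    rw [e]
    exact this
  have hr2 : ∀ t ∈ G, ∀ i, Rough Y (a i * nn' t + b i) := by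
    intro t ht i
    have := ht.2.2 (i, true)
    have e : a i * nn' t + b i = a i * U true * W * t + (a i * (n₀ + W * u true * μ) + b i) := by
      simp only [hnn', hU, hu]
      simp
      ring
    rw [e]
    exact this
  by_contra hne
  have hcover : G ⊆ {t ∈ G | nn t ∈ Exc a b o F c Y X Z} ∪ {t ∈ G | nn' t ∈ Exc a b o F c Y X Z} := by
    intro t ht
    obtain ⟨h1, h2, h3⟩ := hin t ht.1 ht.2.1
    by_contra hcon
    rw [Set.mem_union, not_or] at hcon
    obtain ⟨h4, h5⟩ := hcon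
    have h6 : F (a o * nn t + b o) = c := by
      by_contra h
      exact h4 ⟨ht, h1.1, h1.2, hr1 t ht, h⟩
    have h7 : F (a o * nn' t + b o) = c := by
      by_contra h
      exact h5 ⟨ht, h2.1, h2.2, hr2 t ht, h⟩
    rw [e1, hF _ _ hV.ne' h3.ne'] at h6
    rw [e2, hF _ _ (by linarith) h3.ne'] at h7
    exact hne (add_right_cancel (h6.trans h7.symm))
  have hV' : 0 < V' := by linarith
  have k1 : {t ∈ G | nn t ∈ Exc a b o F c Y X Z}.ncard ≤ E := by
    refine le_trans (Set.ncard_le_ncard_of_injOn nn (fun t ht => ht.2) ?_ (exc_finite _ _ _ _ _ _ _ _)) hE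
    intro s _ t _ hst
    simp only [hnn] at hst
    have : V * W * s = V * W * t := by linarith
    exact mul_left_cancel₀ hVW.ne' this
  have k2 : {t ∈ G | nn' t ∈ Exc a b o F c Y X Z}.ncard ≤ E := by
    refine le_trans (Set.ncard_le_ncard_of_injOn nn' (fun t ht => ht.2) ?_ (exc_finite _ _ _ _ _ _ _ _)) hE
    intro s _ t _ hst
    simp only [hnn'] at hst
    have : V' * W * s = V' * W * t := by linarith
    exact mul_left_cancel₀ (mul_pos hV' hWz).ne' this
  have k3 := Set.ncard_le_ncard hcover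
    ((hGfin.subset fun t ht => ht.1).union (hGfin.subset fun t ht => ht.1))
  have k4 := Set.ncard_union_le {t ∈ G | nn t ∈ Exc a b o F c Y X Z}
    {t ∈ G | nn' t ∈ Exc a b o F c Y X Z}
  omega

end Pool.Agent.W5h75.SP
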