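import Mathlib
import Pool.Agent.W5h75.SP.Core
import Pool.Agent.H661R3.OP.CR

/-!
Signs of completely multiplicative functions at rough tuples, in short intervals: the main theorem
in terms of the sieving level `Y`.
-/

set_option autoImplicit false

open Finset

namespace Pool.Agent.W5h75.SP

open Pool.Agent.H661R3.OP

theorem ex_one {K C : ℕ} (hSV : SVK K C) (hK : 1 ≤ K) (Q : ℤ)
    (hQ : ∀ p : ℕ, p.Prime → p ≤ 2 * K → (p : ℤ) ∣ Q) (Y : ℕ) (hY : 2 ≤ Y) (L : ℤ) :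
    ∃ v : ℤ, L ≤ v ∧ v < L + (Y ^ C : ℕ) ∧ Rough Y (1 + Q * v) := by
  have h := hSV Unit (by simpa using hK) (fun _ => Q) (fun _ => 1) Y hY
    (by
      intro _ p hp _ _ hd
      have h1 : p ∣ 1 := Int.natCast_dvd_natCast.1 (by simpa using hd)
      exact hp.one_lt.ne' (Nat.dvd_one.1 h1))
    (fun _ => hQ) L (Y ^ C) le_rfl
  have hpos : 0 < Y ^ C := by positivity
  have h1 : 1 ≤ {t : ℤ | L ≤ t ∧ t < L + (Y ^ C : ℕ) ∧ ∀ _ : Unit, Rough Y (Q * t + 1)}.ncard := by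
    by_contra hcon
    have h0 : {t : ℤ | L ≤ t ∧ t < L + (Y ^ C : ℕ) ∧ ∀ _ : Unit, Rough Y (Q * t + 1)}.ncard = 0 := by
      omega
    rw [h0] at h
    omega
  have hne : {t : ℤ | L ≤ t ∧ t < L + (Y ^ C : ℕ) ∧ ∀ _ : Unit, Rough Y (Q * t + 1)}.Nonempty := by
    apply Set.nonempty_of_ncard_ne_zero
    omega
  obtain ⟨t, h1, h2, h3⟩ := hne
  refine ⟨t, h1, h2, ?_⟩
  rw [add_comm]
  exact h3 ()

section

variable {ι : Type} [Fintype ι] (a b : ι → ℤ) (o : ι) (W : ℕ) (n₀ : ℤ) (K C : ℕ)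
    (hSV : SVK K C) (hK : 2 * Fintype.card ι ≤ K) (hW : 0 < W)
    (hWp : ∀ p : ℕ, p.Prime → p ≤ 2 * K → p ∣ W) (Y : ℕ) (hY : 2 ≤ Y)
    (hao : 0 < a o)
    (hn₀ : ∀ i, ∀ p : ℕ, p.Prime → p ∣ W → ¬ (p : ℤ) ∣ a i * n₀ + b i)
    (hab : ∀ i, ∀ p : ℕ, p.Prime → p ≤ Y → (p : ℤ) ∣ a i → ¬ (p : ℤ) ∣ b i)
    (F : ℤ → ZMod 2) (hF : Add2 F) (c : ZMod 2) (X Z : ℤ) (E : ℕ)
    (hE : (Exc a b o F c Y X Z).ncard ≤ E) (hZX : Z ≤ X) (hX : 0 < X) (hb : |b o| < X)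

include hSV hK hW hWp hY hao hn₀ hab hF hE hZX hX hb

theorem chain (A Vm v₀ : ℤ) (hA : 0 < A) (hZ : 0 < Z)
    (hcl : 12 * X * (Y ^ C : ℕ) * (a o * W) ≤ Z * A) (hv₀ : A ≤ 1 + a o * W * v₀)
    (hr₀ : Rough Y (1 + a o * W * v₀))
    (hlen : 2 * Vm * W * (Y ^ C * (2 * E + 1) : ℕ) ≤ Z) :
    ∀ n : ℕ, ∀ v : ℤ, v₀ ≤ v → v - v₀ ≤ n → Rough Y (1 + a o * W * v) →
      1 + a o * W * v ≤ Vm → F (1 + a o * W * v₀) = F (1 + a o * W * v) := by
  have hι : 0 < Fintype.card ι := Fintype.card_pos_iff.2 ⟨o⟩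
  have hWz : (0 : ℤ) < W := by exact_mod_cast hW
  have hQ : 0 < a o * W := mul_pos hao hWz
  have hM : (0 : ℤ) < (Y ^ C : ℕ) := by positivity
  -- a single link
  have hlink : ∀ v v' : ℤ, v₀ ≤ v → v ≤ v' → v' - v ≤ 2 * (Y ^ C : ℕ) → Rough Y (1 + a o * W * v) →
      Rough Y (1 + a o * W * v') → 1 + a o * W * v' ≤ Vm →
      F (1 + a o * W * v) = F (1 + a o * W * v') := by
    intro v v' h0 h1 h2 hr hr' hVm
    have e0 : a o * W * v₀ ≤ a o * W * v := mul_le_mul_of_nonneg_left h0 hQ.le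
    have e1 : a o * W * v ≤ a o * W * v' := mul_le_mul_of_nonneg_left h1 hQ.le
    refine link a b o W n₀ K C hSV hK hW hWp Y hY hao hn₀ hab F hF c X Z E hE hZX hX hb
      (1 + a o * W * v) (1 + a o * W * v') v v' (by linarith) (by linarith) hr hr' rfl rfl ?_ ?_
    · have e2 : a o * W * (v' - v) ≤ a o * W * (2 * (Y ^ C : ℕ)) :=
        mul_le_mul_of_nonneg_left h2 hQ.le
      have e3 : 6 * X * (a o * W * (v' - v)) ≤ 6 * X * (a o * W * (2 * (Y ^ C : ℕ))) :=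
        mul_le_mul_of_nonneg_left e2 (by linarith)
      have e4 : Z * A ≤ Z * (1 + a o * W * v) := mul_le_mul_of_nonneg_left (by linarith) hZ.le
      calc 6 * X * (1 + a o * W * v' - (1 + a o * W * v))
          = 6 * X * (a o * W * (v' - v)) := by ring
        _ ≤ 6 * X * (a o * W * (2 * (Y ^ C : ℕ))) := e3
        _ = 12 * X * (Y ^ C : ℕ) * (a o * W) := by ring
        _ ≤ Z * A := hcl
        _ ≤ _ := e4
    · have e5 : (0 : ℤ) ≤ W * (Y ^ C * (2 * E + 1) : ℕ) := by positivity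
      have e6 : (1 + a o * W * v) * (W * (Y ^ C * (2 * E + 1) : ℕ)) ≤
          Vm * (W * (Y ^ C * (2 * E + 1) : ℕ)) := mul_le_mul_of_nonneg_right (by linarith) e5
      calc 2 * (1 + a o * W * v) * W * (Y ^ C * (2 * E + 1) : ℕ)
          = 2 * ((1 + a o * W * v) * (W * (Y ^ C * (2 * E + 1) : ℕ))) := by ring
        _ ≤ 2 * (Vm * (W * (Y ^ C * (2 * E + 1) : ℕ))) := by linarith
        _ = 2 * Vm * W * (Y ^ C * (2 * E + 1) : ℕ) := by ring
        _ ≤ Z := hlen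
  intro n
  induction n with
  | zero =>
    intro v h1 h2 _ _
    have : v = v₀ := by push_cast at h2; omega
    rw [this]
  | succ n ih =>
    intro v h1 h2 hr hVm
    by_cases hsmall : v - v₀ ≤ 2 * (Y ^ C : ℕ)
    · exact hlink v₀ v le_rfl h1 hsmall hr₀ hr hVm
    · push Not at hsmall
      obtain ⟨v₁, k1, k2, k3⟩ := ex_one hSV (by omega) (a o * W) (fun p hp hpK =>
        (Int.natCast_dvd_natCast.2 (hWp p hp hpK)).mul_left _) Y hY (v - 2 * (Y ^ C : ℕ))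
      have e1 : v₁ ≤ v := by linarith
      have e2 : a o * W * v₁ ≤ a o * W * v := mul_le_mul_of_nonneg_left e1 hQ.le
      rw [ih v₁ (by linarith) (by push_cast at h2; omega) k3 (by linarith)]
      exact hlink v₁ v (by linarith) e1 (by linarith) k3 hr hVm

theorem core (hZ : 0 < Z) (hsize : 30 * (a o * W) ^ 2 * W * Y ^ (2 * C + 2) * X * (2 * E + 1) ≤ Z ^ 2)
    (p : ℕ) (hp : p.Prime) (hYp : Y < p) (hpY : p ≤ Y ^ 2) (hpQ : (a o * W) ∣ (p : ℤ) - 1) :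
    F p = 0 := by
  have hι : 0 < Fintype.card ι := Fintype.card_pos_iff.2 ⟨o⟩
  have hWz : (0 : ℤ) < W := by exact_mod_cast hW
  have hQ : 0 < a o * W := mul_pos hao hWz
  have hM : (0 : ℤ) < (Y ^ C : ℕ) := by positivity
  set Q : ℤ := a o * W with hQdef
  set M : ℤ := ((Y ^ C : ℕ) : ℤ) with hMdef
  set A : ℤ := 12 * X * M * Q / Z + 1 with hA
  have hd : Z * (12 * X * M * Q / Z) + 12 * X * M * Q % Z = 12 * X * M * Q := Int.mul_ediv_add_emod _ _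
  have hm0 : 0 ≤ 12 * X * M * Q % Z := Int.emod_nonneg _ hZ.ne'
  have hm1 : 12 * X * M * Q % Z < Z := Int.emod_lt_of_pos _ hZ
  have hA1 : 12 * X * M * Q ≤ Z * A := by rw [hA, mul_add, mul_one]; linarith
  have hA2 : Z * A ≤ 12 * X * M * Q + Z := by rw [hA, mul_add, mul_one]; linarith
  have hXMQ : 0 < X * M * Q := by positivity
  have hA0 : 0 < A := by
    have : 0 < Z * A := by linarith
    exact pos_of_mul_pos_right this hZ.le
  obtain ⟨v₀, k1, k2, k3⟩ := ex_one hSV (by omega) Q (fun p hp hpK =>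
        (Int.natCast_dvd_natCast.2 (hWp p hp hpK)).mul_left _) Y hY A
  have hv0 : 0 < v₀ := by linarith
  have hV0 : A ≤ 1 + Q * v₀ := by nlinarith
  obtain ⟨w, hw⟩ := hpQ
  have hw' : (p : ℤ) = 1 + Q * w := by linarith
  have hYz : (2 : ℤ) ≤ Y := by exact_mod_cast hY
  have hp1 : (Y : ℤ) < p := by exact_mod_cast hYp
  have hp2 : (p : ℤ) ≤ (Y : ℤ) ^ 2 := by exact_mod_cast hpY
  have hw0 : 0 ≤ w := by
    by_contra h
    push Not at h
    have : Q * w ≤ Q * (-1) := mul_le_mul_of_nonneg_left (by omega) hQ.le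
    linarith
  set v₁ : ℤ := w + v₀ + Q * w * v₀ with hv₁
  have hv01 : v₀ ≤ v₁ := by
    have : 0 ≤ Q * w * v₀ := by positivity
    linarith
  have e1 : 1 + Q * v₁ = p * (1 + Q * v₀) := by rw [hv₁, hw']; ring
  -- sizes
  set Vm : ℤ := (Y : ℤ) ^ 2 * (1 + Q * (A + M)) with hVm
  have hle : 1 + Q * v₁ ≤ Vm := by
    rw [e1, hVm]
    have e2 : Q * v₀ ≤ Q * (A + M) := mul_le_mul_of_nonneg_left (by linarith) hQ.le
    exact mul_le_mul hp2 (by linarith) (by positivity) (by positivity)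
  have hQ1 : 1 ≤ Q := hQ
  have hM1 : 1 ≤ M := hM
  have hZV : Z * (1 + Q * (A + M)) ≤ 15 * X * M * Q ^ 2 := by
    have f1 : Q * (Z * A) ≤ Q * (12 * X * M * Q + Z) := mul_le_mul_of_nonneg_left hA2 hQ.le
    have hMQ2 : 1 ≤ M * Q ^ 2 := by nlinarith [mul_pos hM (pow_pos hQ 2)]
    have hXX : Z ≤ X * (M * Q ^ 2) := by nlinarith
    have f2 : Q * Z ≤ X * M * Q ^ 2 := by
      have g1 : Q * Z ≤ Q * X := mul_le_mul_of_nonneg_left hZX hQ.le
      have g2 : Q * X ≤ (Q * X) * (M * Q) := by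
        have : 1 ≤ M * Q := by nlinarith
        have h0 : 0 ≤ Q * X := by positivity
        nlinarith
      calc Q * Z ≤ Q * X := g1
        _ ≤ (Q * X) * (M * Q) := g2
        _ = X * M * Q ^ 2 := by ring
    have f3 : Z * (Q * M) ≤ X * M * Q ^ 2 := by
      have g1 : Z * (Q * M) ≤ X * (Q * M) := mul_le_mul_of_nonneg_right hZX (by positivity)
      have g2 : X * (Q * M) ≤ (X * (Q * M)) * Q := by
        have h0 : 0 ≤ X * (Q * M) := by positivity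
        nlinarith
      calc Z * (Q * M) ≤ X * (Q * M) := g1
        _ ≤ (X * (Q * M)) * Q := g2
        _ = X * M * Q ^ 2 := by ring
    calc Z * (1 + Q * (A + M)) = Z + Q * (Z * A) + Z * (Q * M) := by ring
      _ ≤ X * (M * Q ^ 2) + Q * (12 * X * M * Q + Z) + X * M * Q ^ 2 := by linarith
      _ = 14 * (X * M * Q ^ 2) + Q * Z := by ring
      _ ≤ 14 * (X * M * Q ^ 2) + X * M * Q ^ 2 := by linarith
      _ = 15 * X * M * Q ^ 2 := by ring
  have hlen : 2 * Vm * W * (Y ^ C * (2 * E + 1) : ℕ) ≤ Z := by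
    have g : Z * (2 * Vm * W * (Y ^ C * (2 * E + 1) : ℕ)) ≤ Z * Z := by
      have h0 : (0 : ℤ) ≤ 2 * (Y : ℤ) ^ 2 * W * (M * (2 * E + 1)) := by positivity
      calc Z * (2 * Vm * W * (Y ^ C * (2 * E + 1) : ℕ))
          = (2 * (Y : ℤ) ^ 2 * W * (M * (2 * E + 1))) * (Z * (1 + Q * (A + M))) := by
            rw [hVm, hMdef]; push_cast; ring
        _ ≤ (2 * (Y : ℤ) ^ 2 * W * (M * (2 * E + 1))) * (15 * X * M * Q ^ 2) :=
            mul_le_mul_of_nonneg_left hZV h0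
        _ = 30 * Q ^ 2 * W * Y ^ (2 * C + 2) * X * (2 * E + 1) := by
            rw [hMdef]; push_cast; ring
        _ ≤ Z ^ 2 := hsize
        _ = Z * Z := by ring
    exact le_of_mul_le_mul_left g hZ
  have hr1 : Rough Y (1 + Q * v₁) := by
    rw [e1]
    exact rough_mul (rough_prime hp hYp) k3
  have hch := chain a b o W n₀ K C hSV hK hW hWp Y hY hao hn₀ hab F hF c X Z E hE hZX hX hb
    A Vm v₀ hA0 hZ (by
      calc 12 * X * (Y ^ C : ℕ) * (a o * W) = 12 * X * M * Q := by rw [hMdef, hQdef]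
        _ ≤ Z * A := hA1) hV0 k3 hlen (v₁ - v₀).toNat v₁ hv01 (by
      rw [Int.toNat_of_nonneg (by linarith)]) hr1 hle
  have hV0pos : (1 + Q * v₀) ≠ 0 := by linarith
  have hp0 : (p : ℤ) ≠ 0 := by
    have := hp.pos
    omega
  have e3 : F (1 + a o * W * v₁) = F p + F (1 + a o * W * v₀) := by
    have : 1 + a o * W * v₁ = p * (1 + Q * v₀) := e1
    rw [this, hF _ _ hp0 hV0pos]
  rw [e3] at hch
  have : F (1 + a o * W * v₀) = F p + F (1 + a o * W * v₀) := hch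
  have h2 : F p + F (1 + a o * W * v₀) = 0 + F (1 + a o * W * v₀) := by rw [zero_add]; exact this.symm
  exact add_right_cancel h2

end

/-- the main theorem in terms of `Y` -/
theorem main0 (ι : Type) [Fintype ι] (a b : ι → ℤ) (o : ι) (hao : 0 < a o)
    (hadm : ∀ p : ℕ, p.Prime → ∃ n : ℤ, ∀ i, ¬ (p : ℤ) ∣ a i * n + b i) :
    ∃ q C Y₀ : ℕ, 0 < q ∧ ∀ (F : ℤ → ZMod 2), Add2 F → ∀ (c : ZMod 2) (Y : ℕ) (X Z : ℤ),
      Y₀ ≤ Y → |b o| < X → 0 < Z → Z ≤ X → X * Y ^ C ≤ Z ^ 2 →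
      (∃ p : ℕ, p.Prime ∧ Y < p ∧ p ≤ Y ^ 2 ∧ (q : ℤ) ∣ (p : ℤ) - 1 ∧ F p ≠ 0) →
      Z ^ 2 < X * Y ^ C * ({n : ℤ | X < n ∧ n ≤ X + Z ∧ (∀ i, Rough Y (a i * n + b i)) ∧
        F (a o * n + b o) = c}.ncard : ℤ) := by
  classical
  set K : ℕ := 2 * Fintype.card ι with hK
  obtain ⟨C, hSV⟩ := exists_SVK K
  set W : ℕ := primorial (2 * K) with hWdef
  have hW : 0 < W := primorial_pos _
  have hWp : ∀ p : ℕ, p.Prime → p ≤ 2 * K → p ∣ W := fun p hp h => hp.dvd_primorial_iff.2 h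
  choose r hr using hadm
  obtain ⟨n₀, hn₀⟩ := t_CR {p : Fin (2 * K + 1) // (p : ℕ).Prime} (fun p => ((p.1 : ℕ) : ℤ))
    (fun p => r p.1 p.2) (by
      rintro ⟨i, hi⟩ ⟨j, hj⟩ hij
      have hne : (i : ℕ) ≠ (j : ℕ) := by
        intro hh
        apply hij
        ext
        exact hh
      exact Nat.isCoprime_iff_coprime.2 ((Nat.coprime_primes hi hj).2 hne))
  have hn₀' : ∀ i, ∀ p : ℕ, p.Prime → p ∣ W → ¬ (p : ℤ) ∣ a i * n₀ + b i := by
    intro i p hp hpW hd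
    have hpK : p ≤ 2 * K := hp.dvd_primorial_iff.1 hpW
    have h1 := hn₀ ⟨⟨p, by omega⟩, hp⟩
    refine hr p hp i ?_
    have h2 : a i * r p hp + b i = (a i * n₀ + b i) - a i * (n₀ - r p hp) := by ring
    rw [h2]
    exact dvd_sub hd (h1.mul_left _)
  have hab : ∀ i, ∀ p : ℕ, p.Prime → (p : ℤ) ∣ a i → ¬ (p : ℤ) ∣ b i := by
    intro i p hp h1 h2
    exact hr p hp i (dvd_add (h1.mul_right _) h2)
  set q : ℕ := (a o).toNat * W with hq
  have hqz : (q : ℤ) = a o * W := by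
    rw [hq]; push_cast; rw [Int.toNat_of_nonneg hao.le]
  have hq0 : 0 < q := Nat.mul_pos (by omega) hW
  refine ⟨q, 2 * C + 4, max 2 (60 * q ^ 2 * W), hq0, ?_⟩
  intro F hF c Y X Z hYY hb hZ hZX hXZ ⟨p, hp, hp1, hp2, hpq, hFp⟩
  have hY : 2 ≤ Y := (le_max_left _ _).trans hYY
  have hYW : 60 * q ^ 2 * W ≤ Y := (le_max_right _ _).trans hYY
  have hX : 0 < X := lt_of_le_of_lt (abs_nonneg _) hb
  set S : Set ℤ := {n : ℤ | X < n ∧ n ≤ X + Z ∧ (∀ i, Rough Y (a i * n + b i)) ∧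
        F (a o * n + b o) = c} with hS
  by_contra hcon
  push Not at hcon
  apply hFp
  have hexc : Exc a b o F (c + 1) Y X Z = S := by
    ext n
    have hz : ∀ x c : ZMod 2, x ≠ c + 1 ↔ x = c := by decide
    simp only [Exc, hS, Set.mem_ofPred_eq, hz]
  have hYz : (1 : ℤ) ≤ Y := by exact_mod_cast (by omega : 1 ≤ Y)
  refine core a b o W n₀ K C hSV le_rfl hW hWp Y hY hao hn₀' (fun i p hp _ => hab i p hp) F hF
    (c + 1) X Z S.ncard (by rw [hexc]) hZX hX hb hZ ?_ p hp hp1 hp2 (by rw [← hqz]; exact hpq)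
  -- the size condition
  set N : ℤ := (S.ncard : ℤ) with hN
  have hN0 : 0 ≤ N := by positivity
  have hY60 : (60 : ℤ) * (a o * W) ^ 2 * W ≤ Y := by
    rw [← hqz]; exact_mod_cast hYW
  have h1 : 30 * (a o * W) ^ 2 * W * Y ^ (2 * C + 2) * X * (2 * N + 1) ≤
      Y ^ (2 * C + 3) * X * (N + 1) := by
    have h0 : (0 : ℤ) ≤ Y ^ (2 * C + 2) * X * (N + 1) := by positivity
    have hW0 : (0 : ℤ) ≤ W := by positivity
    have h00 : (0 : ℤ) ≤ 30 * (a o * W) ^ 2 * W * Y ^ (2 * C + 2) * X := by positivity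
    calc 30 * (a o * W) ^ 2 * W * Y ^ (2 * C + 2) * X * (2 * N + 1)
        ≤ 30 * (a o * W) ^ 2 * W * Y ^ (2 * C + 2) * X * (2 * (N + 1)) :=
          mul_le_mul_of_nonneg_left (by linarith) h00
      _ = (60 * (a o * W) ^ 2 * W) * (Y ^ (2 * C + 2) * X * (N + 1)) := by ring
      _ ≤ Y * (Y ^ (2 * C + 2) * X * (N + 1)) := mul_le_mul_of_nonneg_right hY60 h0
      _ = Y ^ (2 * C + 3) * X * (N + 1) := by ring
  refine h1.trans ?_
  have hYz2 : (2 : ℤ) ≤ Y := by exact_mod_cast hY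
  rcases eq_or_lt_of_le hN0 with h0 | h0
  · rw [← h0]
    calc (Y : ℤ) ^ (2 * C + 3) * X * (0 + 1) = X * Y ^ (2 * C + 3) := by ring
      _ ≤ X * Y ^ (2 * C + 4) := mul_le_mul_of_nonneg_left
          (pow_le_pow_right₀ hYz (by omega)) hX.le
      _ ≤ Z ^ 2 := hXZ
  · have h2 : N + 1 ≤ Y * N := by nlinarith
    calc (Y : ℤ) ^ (2 * C + 3) * X * (N + 1) ≤ Y ^ (2 * C + 3) * X * (Y * N) :=
          mul_le_mul_of_nonneg_left h2 (by positivity)
      _ = X * Y ^ (2 * C + 4) * N := by ring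
      _ ≤ Z ^ 2 := hcon

end Pool.Agent.W5h75.SP
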